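import Pool.Agent.Lib.HYP.Ifc

/-!
Module M.Typ of GBC. Combinatorics of the types.

PROOF. `r b = ν (g + b)` for `1 ≤ b ≤ g` and `r b = 0` otherwise (`Int.toNat`; `ν (g) ≥ 0` by `hpair` at the
middle index `g`, so `ν (g + b) ≥ 0`). `Fin.rev i = 2 g - i`. `nn g r i = r (i - g) - r (g - i)`
(truncated subtraction): for `i = g + b`, `b ≥ 1`: `nn = ν (g + b)`. For `i = g - b`, `b ≥ 1`:
`nn = - ν (g + b)`, and `0 ≤ ν (g - b) + ν (g + b) ≤ C`, because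
`∑ ν = ν (g) + ∑_{b = 1}^g (ν (g - b) + ν (g + b)) ≤ C` with all terms `≥ 0`. For `i = g`: `nn = 0 ≤ ν (g) ≤ C`.
`Typ g (m + C) r`: `r 1 = ν (g + 1) ≤ C - ν (g - 1) ≤ C + m` (`h1`);
`r (j + 1) = ν (g + j + 1) ≤ C - ν (g - j - 1) ≤ C + 2 m + ν (g + j)` (`h2`).
-/

set_option autoImplicit false

namespace Pool.Agent.GBC

open Pool.Agent.HYP

private theorem mtyp_pair {n : ℕ} {C : ℕ} (ν : Fin n → ℤ) (hsum : ∑ i, ν i ≤ C)
    (hpair : ∀ i, 0 ≤ ν i + ν (Fin.rev i)) (i : Fin n) (hi : i ≠ Fin.rev i) :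
    ν i + ν (Fin.rev i) ≤ C := by
  have h1 : ∑ i, ν (Fin.rev i) = ∑ i, ν i :=
    Equiv.sum_comp Fin.revPerm ν
  have h2 : ∑ i, (ν i + ν (Fin.rev i)) ≤ 2 * C := by
    rw [Finset.sum_add_distrib, h1]
    omega
  have h3 : ∑ j ∈ ({i, Fin.rev i} : Finset (Fin n)), (ν j + ν (Fin.rev j)) ≤
      ∑ i, (ν i + ν (Fin.rev i)) :=
    Finset.sum_le_sum_of_subset_of_nonneg (Finset.subset_univ _) fun j _ _ => hpair j
  rw [Finset.sum_pair hi, Fin.rev_rev] at h3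
  omega

private theorem mtyp_mid {n : ℕ} {C : ℕ} (ν : Fin n → ℤ) (hsum : ∑ i, ν i ≤ C)
    (hpair : ∀ i, 0 ≤ ν i + ν (Fin.rev i)) (i : Fin n) (hi : Fin.rev i = i) :
    0 ≤ ν i ∧ ν i ≤ C := by
  have h1 : ∑ i, ν (Fin.rev i) = ∑ i, ν i :=
    Equiv.sum_comp Fin.revPerm ν
  have h2 : ∑ i, (ν i + ν (Fin.rev i)) ≤ 2 * C := by
    rw [Finset.sum_add_distrib, h1]
    omega
  have h3 : ν i + ν (Fin.rev i) ≤ ∑ i, (ν i + ν (Fin.rev i)) :=
    Finset.single_le_sum (f := fun i => ν i + ν (Fin.rev i)) (fun j _ => hpair j)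
      (Finset.mem_univ i)
  have h4 := hpair i
  rw [hi] at h3 h4
  omega

theorem exists_typ {g m C : ℕ} (hg : 1 ≤ g) (ν : Fin (2 * g + 1) → ℤ) (hmono : Monotone ν)
    (hsum : ∑ i, ν i ≤ C) (hpair : ∀ i, 0 ≤ ν i + ν (Fin.rev i))
    (h1 : ∀ i : Fin (2 * g + 1), (i : ℕ) = g - 1 → -(m : ℤ) ≤ ν i)
    (h2 : ∀ (j : ℕ) (i i' : Fin (2 * g + 1)), 1 ≤ j → j < g → (i : ℕ) = g + j →
      (i' : ℕ) = g - (j + 1) → 0 ≤ 2 * m + ν i + ν i') :
    ∃ r : ℕ → ℕ, Typ g (m + C) r ∧ ∀ i, nn g r i ≤ ν i ∧ ν i ≤ nn g r i + C := by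
  classical
  let r : ℕ → ℕ := fun b => if h : 1 ≤ b ∧ b ≤ g then (ν ⟨g + b, by omega⟩).toNat else 0
  have hr0 : r 0 = 0 := dif_neg (by omega)
  have hmid := mtyp_mid ν hsum hpair ⟨g, by omega⟩ (by
    ext
    rw [Fin.val_rev]
    show 2 * g + 1 - (g + 1) = g
    omega)
  have hr : ∀ b (h : 1 ≤ b ∧ b ≤ g), (r b : ℤ) = ν ⟨g + b, by omega⟩ := by
    intro b h
    have h3 : r b = (ν ⟨g + b, by omega⟩).toNat := dif_pos h
    have h4 : ν ⟨g, by omega⟩ ≤ ν ⟨g + b, by omega⟩ := hmono (by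
      rw [Fin.le_def]
      show g ≤ g + b
      omega)
    rw [h3]
    omega
  have hpr : ∀ b (h : 1 ≤ b ∧ b ≤ g), 0 ≤ ν ⟨g - b, by omega⟩ + ν ⟨g + b, by omega⟩ ∧
      ν ⟨g - b, by omega⟩ + ν ⟨g + b, by omega⟩ ≤ C := by
    intro b h
    have h3 : Fin.rev (⟨g - b, by omega⟩ : Fin (2 * g + 1)) = ⟨g + b, by omega⟩ := by
      ext
      rw [Fin.val_rev]
      show 2 * g + 1 - (g - b + 1) = g + b
      omega
    have h4 := hpair ⟨g - b, by omega⟩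
    have h5 := mtyp_pair ν hsum hpair ⟨g - b, by omega⟩ (by
      rw [h3]
      intro h6
      have h7 : g - b = g + b := congrArg Fin.val h6
      omega)
    rw [h3] at h4 h5
    exact ⟨h4, h5⟩
  refine ⟨r, ⟨hr0, ?_, ?_, ?_, ?_⟩, ?_⟩
  · intro j hj
    rcases Nat.eq_zero_or_pos j with rfl | hj0
    · rw [hr0]
      exact Nat.zero_le _
    · have h3 := hr j ⟨hj0, hj.le⟩
      have h4 := hr (j + 1) ⟨by omega, hj⟩
      have h5 : ν ⟨g + j, by omega⟩ ≤ ν ⟨g + (j + 1), by omega⟩ := hmono (by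
        rw [Fin.le_def]
        show g + j ≤ g + (j + 1)
        omega)
      omega
  · have h3 := hr 1 ⟨le_rfl, hg⟩
    have h4 := hpr 1 ⟨le_rfl, hg⟩
    have h5 := h1 ⟨g - 1, by omega⟩ rfl
    omega
  · intro j hj1 hj
    have h3 := hr j ⟨hj1, hj.le⟩
    have h4 := hr (j + 1) ⟨by omega, hj⟩
    have h5 := hpr (j + 1) ⟨by omega, hj⟩
    have h6 := h2 j ⟨g + j, by omega⟩ ⟨g - (j + 1), by omega⟩ hj1 hj rfl rfl
    omega
  · intro j hj
    exact dif_neg (by omega)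
  · intro i
    unfold nn
    rcases lt_trichotomy (i : ℕ) g with hi | hi | hi
    · have h3 : (i : ℕ) - g = 0 := by omega
      have h4 := hr (g - i) ⟨by omega, by omega⟩
      have h5 := hpr (g - i) ⟨by omega, by omega⟩
      have h6 : (⟨g - (g - (i : ℕ)), by omega⟩ : Fin (2 * g + 1)) = i := by
        ext
        show g - (g - (i : ℕ)) = i
        omega
      rw [h6] at h5
      rw [h3, hr0]
      omega
    · have h3 : (i : ℕ) - g = 0 := by omega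
      have h4 : g - (i : ℕ) = 0 := by omega
      have h6 : (⟨g, by omega⟩ : Fin (2 * g + 1)) = i := by
        ext
        exact hi.symm
      rw [h6] at hmid
      rw [h3, h4, hr0]
      omega
    · have h3 : g - (i : ℕ) = 0 := by omega
      have h4 := hr (i - g) ⟨by omega, by omega⟩
      have h6 : (⟨g + ((i : ℕ) - g), by omega⟩ : Fin (2 * g + 1)) = i := by
        ext
        show g + ((i : ℕ) - g) = i
        omega
      rw [h6] at h4
      rw [h3, hr0]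
      omega

end Pool.Agent.GBC
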