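import Pool.Agent.Lib.GBC.M.Basis
import Pool.Agent.Lib.GBC.M.Typ
import Pool.Agent.Lib.HYP.L.Det
import Pool.Agent.Lib.HYP.L.Pair
import Pool.Agent.Lib.HYP.B.Iso
import Pool.Agent.Lib.HYP.B.Blk

/-!
Module M.Red of GBC. Reduced representatives of the nontrivial classes of `U (f)`.

PROOF. Let `c ∈ U (f)`, not a square; `c = a ^ 2 e` with `e, e' ∈ BL 0`, `e e' = 1` (`exists_norm`). `e ∈ U (f)`
(`SqNorm e`; `UnitAt` is invariant under multiplication by the square of the unit `a⁻¹`), not a square.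
`C₂` from `exists_basis`; `b', ν` for `e`; put `b i = a⁻¹ • b' i`: `gram1 hm c b = gram1 hm e b'`, the same
for `gram2` (`gram1_scale`, `gram2_scale`). Entries: `τ (e b'_i b'_j) ∈ A` as `e b'_i b'_j = bc s`,
`τ (bc s) = algebraMap (τ s)` (`tau_bc`), and `θ e b'_i b'_j = bc (root * s)`: matrices `G1`, `G2` over `A`,
symmetric (`gram1_symm`, `gram2_symm`, injectivity). Sizes: `e b'_i b'_j ∈ BL (ν_i + ν_j + 4 g m)`
(`BL_mul`), so `τ ∈ M (ν_i + ν_j)` (`BL_tau`), and with `θ` (`BL_root`) `M (2 m + ν_i + ν_j)`.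
`det G1 ≠ 0`: `gram1_det`: `det = (-1) ^ g (det P) ^ 2 norm (e)`, `P = coord` of a basis, `norm e ≠ 0` a
square; so `(-1) ^ g det G1 = u ^ 2`, `u ∈ K`; `u ^ 2 ∈ A`, `A` is integrally closed, so `u ∈ A`.
`det G1 ∈ M (2 ∑ ν_i) ⊆ M (2 C₂)` (`Matrix.det_apply`: every product `∏ G1 (σ i) i` is in
`M (∑ (ν (σ i) + ν i))`, `mul_mem_M`).
`hpair`: if `ν i + ν (rev i) < 0` then for `p ≤ i`, `q ≤ rev i`: `ν p + ν q < 0`, `G1 p q ∈ A ∩ M (neg) = 0`
(`L_neg`): `det_zero_block` with `a = i + 1`, `b = rev i + 1`, `a + b = 2 g + 2 > n`: contradiction.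
`h1`: if `ν (g - 1) < - m` then for `p, q ≤ g - 1`: `2 m + ν p + ν q < 0`: both matrices vanish on
`W = span (b'_0, …, b'_{g-1})`, of dimension `g`: `isoA` (`hu` from `isUnit_of_ne_zero`) makes `e` a square.
`h2`: if `2 m + ν (g + j) + ν (g - j - 1) < 0` then both matrices vanish on `W × V`,
`W = span (b'_0, …, b'_{g-j-1})`, `V = span (b'_0, …, b'_{g+j})`, of dimensions `g - j`, `g + j + 1` with sum
`n`, both `≥ 1`: `isoB`.
`exists_typ` gives `r`, `Typ g (m + C₂) r`, hence `Typ g (m + C) r` for `C = 2 C₂` (all conditions are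
monotone in `m`). `nn i + nn j + C ≥ ν i + ν j`: `d1`, `d2` by `M_mono`; `detC`.
-/

set_option autoImplicit false

open Polynomial

namespace Pool.Agent.GBC

open Pool.Agent.BSDP Pool.Agent.BSDFF Pool.Agent.HYP

private theorem red_vanish {F : Type} [Field F] {f : F[X]} (hf : f.Monic) {n : ℕ}
    (d : AdjoinRoot f) (b : Fin n → AdjoinRoot f) (s t : Set (Fin n))
    (h : ∀ i ∈ s, ∀ j ∈ t, tau hf (d * b i * b j) = 0) :
    ∀ l ∈ Submodule.span F (b '' s), ∀ l' ∈ Submodule.span F (b '' t),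
      tau hf (d * l * l') = 0 := by
  intro l hl l' hl'
  induction hl using Submodule.span_induction with
  | mem x hx =>
    obtain ⟨i, hi, rfl⟩ := hx
    induction hl' using Submodule.span_induction with
    | mem y hy =>
      obtain ⟨j, hj, rfl⟩ := hy
      exact h i hi j hj
    | zero => rw [mul_zero, map_zero]
    | add x y _ _ hx hy => rw [mul_add, map_add, hx, hy, add_zero]
    | smul a x _ hx => rw [mul_smul_comm, map_smul, hx, smul_zero]
  | zero => rw [mul_zero, zero_mul, map_zero]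
  | add x y _ _ hx hy => rw [mul_add, add_mul, map_add, hx, hy, add_zero]
  | smul a x _ hx => rw [mul_smul_comm, smul_mul_assoc, map_smul, hx, smul_zero]

private theorem red_finrank {F V : Type} [Field F] [AddCommGroup V] [Module F V] {n : ℕ}
    (b : Fin n → V) (hli : LinearIndependent F b) (a : ℕ) (ha : a ≤ n) :
    Module.finrank F (Submodule.span F (b '' {i | (i : ℕ) < a})) = a := by
  have h1 : LinearIndependent F (fun i : Fin a => b (Fin.castLE ha i)) :=
    hli.comp _ (Fin.castLE_injective ha)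
  have h2 : b '' {i | (i : ℕ) < a} = Set.range (fun i : Fin a => b (Fin.castLE ha i)) := by
    ext x
    constructor
    · rintro ⟨i, hi, rfl⟩
      exact ⟨⟨i, hi⟩, rfl⟩
    · rintro ⟨i, rfl⟩
      exact ⟨Fin.castLE ha i, i.2, rfl⟩
  rw [h2, finrank_span_eq_card h1, Fintype.card_fin]

private theorem red_symm {k K : Type} [Field k] [Field K] [Algebra k K] (G : Geo k K) {n : ℕ}
    {M : Matrix (Fin n) (Fin n) K} {N : Matrix (Fin n) (Fin n) G.A}
    (h : M = N.map (algebraMap G.A K)) (hM : M.transpose = M) : N.transpose = N := by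
  ext1 i j
  apply IsFractionRing.injective G.A K
  have h1 := congrFun (congrFun hM i) j
  rw [h] at h1
  exact h1

/-- The determinant of the Gram matrix of a basis is not zero. -/
private theorem red_det_ne {F : Type} [Field F] {f : F[X]} (hf : f.Monic) {n : ℕ}
    (h1 : 1 ≤ f.natDegree) (c c' : AdjoinRoot f) (hc : c * c' = 1)
    (hu : ∀ l : AdjoinRoot f, l ≠ 0 → IsUnit l)
    (b : Module.Basis (Fin n) F (AdjoinRoot f)) : (gram1 hf c b).det ≠ 0 := by
  intro h0
  obtain ⟨v, hv, hv0⟩ := Matrix.exists_vecMul_eq_zero_iff.2 h0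
  set x : AdjoinRoot f := ∑ i, v i • b i with hx
  have hx0 : x ≠ 0 := by
    intro h
    apply hv
    funext i
    exact Fintype.linearIndependent_iff.1 b.linearIndependent v h i
  have h2 : ∀ j, tau hf (c * x * b j) = 0 := by
    intro j
    have h3 := congrFun hv0 j
    rw [Pi.zero_apply] at h3
    rw [← h3, hx, Finset.mul_sum, Finset.sum_mul, map_sum]
    unfold Matrix.vecMul
    rw [dotProduct]
    refine Finset.sum_congr rfl fun i _ => ?_
    unfold HYP.gram1
    rw [Matrix.of_apply, mul_smul_comm, smul_mul_assoc, map_smul, smul_eq_mul]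
  have h3 : ∀ l, tau hf (c * x * l) = 0 := by
    intro l
    have h4 := b.sum_repr l
    rw [← h4, Finset.mul_sum, map_sum]
    refine Finset.sum_eq_zero fun i _ => ?_
    rw [mul_smul_comm, map_smul, h2, smul_zero]
  obtain ⟨y, hy⟩ := (hu x hx0).exists_right_inv
  have h4 : ∀ l, tau hf l = 0 := by
    intro l
    have h5 := h3 (c' * y * l)
    have h6 : c * x * (c' * y * l) = (c * c') * (x * y) * l := by ring
    rwa [h6, hc, hy, one_mul, one_mul] at h5
  have h5 := tau_root_top hf h1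
  rw [h4] at h5
  exact zero_ne_one h5

private theorem red_prod_mem {k K : Type} [Field k] [Field K] [Algebra k K] (G : Geo k K)
    {ι : Type} (s : Finset ι) (x : ι → K) (y : ι → ℤ) (h : ∀ i ∈ s, x i ∈ G.M (y i)) :
    ∏ i ∈ s, x i ∈ G.M (∑ i ∈ s, y i) := by
  classical
  induction s using Finset.induction_on with
  | empty =>
    rw [Finset.prod_empty, Finset.sum_empty]
    exact G.one_mem_M le_rfl
  | insert a s ha ih =>
    rw [Finset.prod_insert ha, Finset.sum_insert ha]
    exact G.mul_mem_M (h a (Finset.mem_insert_self a s))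
      (ih fun i hi => h i (Finset.mem_insert_of_mem hi))

private theorem red_det_mem {k K : Type} [Field k] [Field K] [Algebra k K] (G : Geo k K)
    {n : ℕ} (N : Matrix (Fin n) (Fin n) K) (ν : Fin n → ℤ) {C : ℤ} (hC : 2 * ∑ i, ν i ≤ C)
    (h : ∀ i j, N i j ∈ G.M (ν i + ν j)) : N.det ∈ G.M C := by
  rw [Matrix.det_apply]
  refine Submodule.sum_mem _ fun σ _ => ?_
  have h1 : ∏ i, N (σ i) i ∈ G.M (∑ i, (ν (σ i) + ν i)) :=
    red_prod_mem G Finset.univ _ _ fun i _ => h _ _
  have h2 : ∑ i, (ν (σ i) + ν i) ≤ C := by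
    rw [Finset.sum_add_distrib, Equiv.sum_comp σ ν]
    linarith
  have h3 := G.M_mono h2 h1
  rcases Int.units_eq_one_or (Equiv.Perm.sign σ) with h4 | h4
  · rw [h4, one_smul]
    exact h3
  · rw [h4, Units.neg_smul, one_smul]
    exact (G.M C).neg_mem h3

private theorem red_inU {k K : Type} [Field k] [Field K] [Algebra k K] (G : Geo k K)
    {f : G.A[X]} {a : K} (ha : a ≠ 0) {c e : AdjoinRoot (G.fK f)} (hc : InU G c)
    (hce : c = a ^ 2 • e) (he : SqNorm e) : InU G e := by
  refine ⟨he, fun w L => ?_⟩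
  obtain ⟨e₁, e₂, y, h1, h2, h3, h4, h5⟩ := hc.2 w L
  have ha' : w.1.toCompletion a ≠ 0 := by
    rw [Ne, map_eq_zero]
    exact ha
  refine ⟨e₁, e₂, (w.1.toCompletion a)⁻¹ • y, h1, h2, h3, ?_, ?_⟩
  · rw [Algebra.smul_def]
    exact ((IsUnit.mk0 _ (inv_ne_zero ha')).map (algebraMap _ _)).mul h4
  · rw [hce, bc_smul, map_pow] at h5
    rw [_root_.smul_pow, mul_smul_comm, ← h5, smul_smul, inv_pow, inv_mul_cancel₀ (pow_ne_zero 2 ha'),
      one_smul]

theorem reduced {k K : Type} [Field k] [Field K] [Algebra k K] [Finite k]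
    (h2 : (2 : k) ≠ 0) (G : Geo k K) (g : ℕ) (hg : 1 ≤ g) :
    ∃ C : ℕ, ∀ (D : Data G g) (m : ℕ) (f : G.A[X]), Fam D m f → ∀ (hm : (G.fK f).Monic)
      (c : AdjoinRoot (G.fK f)), InU G c → ¬ IsSquare c →
      ∃ (r : ℕ → ℕ) (b : Fin (2 * g + 1) → AdjoinRoot (G.fK f))
        (G1 G2 : Matrix (Fin (2 * g + 1)) (Fin (2 * g + 1)) G.A), Typ g (m + C) r ∧
        gram1 hm c b = G1.map (algebraMap G.A K) ∧ gram2 hm c b = G2.map (algebraMap G.A K) ∧
        DegP G g m C r G1 G2 := by
  obtain ⟨C, hC⟩ := exists_basis h2 G g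
  refine ⟨2 * C, fun D m f hf hm c hc hs => ?_⟩
  have hf0 := hf.toFam₀
  obtain ⟨a, e, e', ha, he, he', hee, hce, hN⟩ := exists_norm hf0 hm c hc.1
  have hUe : InU G e := red_inU G ha hc hce hN
  have hse : ¬ IsSquare e := by
    rintro ⟨x, hx⟩
    apply hs
    refine ⟨a • x, ?_⟩
    rw [hce, hx, smul_mul_smul_comm, sq]
  obtain ⟨b, ν, hmono, hsum, hb, hSA⟩ := hC D m f hf hm e e' he he' hee hUe
  have hinj : Function.Injective (algebraMap G.A K) := IsFractionRing.injective G.A K
  have hfd : (G.fK f).natDegree = 2 * g + 1 := by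
    rw [← hf.deg]
    exact hf.monic.natDegree_map _
  have hu : ∀ l : AdjoinRoot (G.fK f), l ≠ 0 → IsUnit l := isUnit_of_ne_zero hf0
  -- the matrices over `A`
  choose s hs' using hSA
  set G1 : Matrix (Fin (2 * g + 1)) (Fin (2 * g + 1)) G.A :=
    Matrix.of fun i j => tau hf.monic (s i j) with hG1
  set G2 : Matrix (Fin (2 * g + 1)) (Fin (2 * g + 1)) G.A :=
    Matrix.of fun i j => tau hf.monic (AdjoinRoot.root f * s i j) with hG2
  have hg1 : gram1 hm e b = G1.map (algebraMap G.A K) := by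
    ext i j
    show tau hm (e * b i * b j) = algebraMap G.A K (tau hf.monic (s i j))
    rw [← hs' i j, ← tau_bc hf.monic (algebraMap G.A K) (s i j)]
  have hg2 : gram2 hm e b = G2.map (algebraMap G.A K) := by
    ext i j
    show tau hm (AdjoinRoot.root (G.fK f) * e * b i * b j) =
      algebraMap G.A K (tau hf.monic (AdjoinRoot.root f * s i j))
    rw [← tau_bc hf.monic (algebraMap G.A K) (AdjoinRoot.root f * s i j),
      map_mul (bc (algebraMap G.A K) f), bc_root, hs' i j]
    congr 1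
    ring
  -- sizes
  have hz : ∀ i j, e * b i * b j ∈ BL G m hm (ν i + ν j + 4 * m * g) := by
    intro i j
    have h3 := BL_mul hf0 (BL_mul hf0 he (hb i)) (hb j)
    have h4 : 0 + (ν i + 2 * g * m) + (ν j + 2 * g * m) = ν i + ν j + 4 * (m : ℤ) * g := by ring
    rwa [h4] at h3
  have hd1 : ∀ i j, (G1 i j : K) ∈ G.M (ν i + ν j) := by
    intro i j
    have h3 : (G1 i j : K) = tau hm (e * b i * b j) := (congrFun (congrFun hg1 i) j).symm
    rw [h3]
    have h4 := BL_tau hf0 (hz i j)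
    rwa [add_sub_cancel_right] at h4
  have hd2 : ∀ i j, (G2 i j : K) ∈ G.M (2 * m + ν i + ν j) := by
    intro i j
    have h3 : (G2 i j : K) = tau hm (AdjoinRoot.root (G.fK f) * e * b i * b j) :=
      (congrFun (congrFun hg2 i) j).symm
    rw [h3]
    have h4 := BL_tau hf0 (BL_mul hf0 (BL_root hf0 hm) (hz i j))
    have h5 : AdjoinRoot.root (G.fK f) * (e * b i * b j) =
        AdjoinRoot.root (G.fK f) * e * b i * b j := by ring
    have h6 : 2 * (m : ℤ) + (ν i + ν j + 4 * m * g) - 4 * m * g = 2 * m + ν i + ν j := by ring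
    rwa [h5, h6] at h4
  have hz1 : ∀ i j, ν i + ν j < 0 → G1 i j = 0 := by
    intro i j hij
    have h3 := G.L_neg hij (G1 i j).2 (hd1 i j)
    exact Subtype.ext h3
  have hz2 : ∀ i j, 2 * m + ν i + ν j < 0 → G2 i j = 0 := by
    intro i j hij
    have h3 := G.L_neg hij (G2 i j).2 (hd2 i j)
    exact Subtype.ext h3
  have hgd : (gram1 hm e b).det = algebraMap G.A K G1.det := by
    rw [hg1]
    exact ((algebraMap G.A K).map_det G1).symm
  have hdetK : (gram1 hm e b).det ≠ 0 := red_det_ne hm (by omega) e e' hee hu b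
  have hdet0 : G1.det ≠ 0 := by
    intro h
    rw [hgd, h, map_zero] at hdetK
    exact hdetK rfl
  have hpair : ∀ i, 0 ≤ ν i + ν (Fin.rev i) := by
    intro i
    by_contra hcon
    push Not at hcon
    have hrev : ((Fin.rev i : Fin (2 * g + 1)) : ℕ) = 2 * g + 1 - ((i : ℕ) + 1) := Fin.val_rev i
    have hi := i.2
    refine hdet0 (det_zero_block G1 ((i : ℕ) + 1) (((Fin.rev i : Fin (2 * g + 1)) : ℕ) + 1)
      (by omega) (by omega) (by omega) ?_)
    intro i' j' hi' hj'
    have h1 : ν i' ≤ ν i := hmono (Fin.le_def.2 (by omega))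
    have h2' : ν j' ≤ ν (Fin.rev i) := hmono (Fin.le_def.2 (by omega))
    exact hz1 i' j' (by omega)
  have hli : LinearIndependent K b := b.linearIndependent
  have he0 : e ≠ 0 := by
    rintro rfl
    exact hse IsSquare.zero
  have ht1 : ∀ i j, G1 i j = 0 → tau hm (e * b i * b j) = 0 := by
    intro i j hij
    have h1 : tau hm (e * b i * b j) = algebraMap G.A K (G1 i j) :=
      congrFun (congrFun hg1 i) j
    rw [h1, hij, map_zero]
  have ht2 : ∀ i j, G2 i j = 0 → tau hm (AdjoinRoot.root (G.fK f) * e * b i * b j) = 0 := by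
    intro i j hij
    have h1 : tau hm (AdjoinRoot.root (G.fK f) * e * b i * b j) =
        algebraMap G.A K (G2 i j) := congrFun (congrFun hg2 i) j
    rw [h1, hij, map_zero]
  have hone : ∀ i : Fin (2 * g + 1), (i : ℕ) = g - 1 → -(m : ℤ) ≤ ν i := by
    intro i₀ hi₀
    by_contra hcon
    push Not at hcon
    apply hse
    have hb' : ∀ i : Fin (2 * g + 1), (i : ℕ) < g → ν i ≤ ν i₀ := by
      intro i hi
      exact hmono (Fin.le_def.2 (by omega))
    refine isoA hm hg hfd hu e hN
      (Submodule.span K (b '' {i | (i : ℕ) < g}))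
      (red_finrank b hli g (by omega)) (red_vanish hm e b _ _ ?_) (red_vanish hm _ b _ _ ?_)
    · intro i hi j hj
      have h1 := hb' i hi
      have h3 := hb' j hj
      exact ht1 i j (hz1 i j (by omega))
    · intro i hi j hj
      have h1 := hb' i hi
      have h3 := hb' j hj
      exact ht2 i j (hz2 i j (by omega))
  have hstep : ∀ (j : ℕ) (i i' : Fin (2 * g + 1)), 1 ≤ j → j < g → (i : ℕ) = g + j →
      (i' : ℕ) = g - (j + 1) → 0 ≤ 2 * m + ν i + ν i' := by
    intro j i₀ i₁ hj hjg hi₀ hi₁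
    by_contra hcon
    push Not at hcon
    have hb₁ : ∀ i : Fin (2 * g + 1), (i : ℕ) < g - j → ν i ≤ ν i₁ := by
      intro i hi
      exact hmono (Fin.le_def.2 (by omega))
    have hb₀ : ∀ i : Fin (2 * g + 1), (i : ℕ) < g + j + 1 → ν i ≤ ν i₀ := by
      intro i hi
      exact hmono (Fin.le_def.2 (by omega))
    have hW := red_finrank b hli (g - j) (by omega)
    have hV := red_finrank b hli (g + j + 1) (by omega)
    refine isoB hm hu e he0 (Submodule.span K (b '' {i | (i : ℕ) < g - j}))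
      (Submodule.span K (b '' {i | (i : ℕ) < g + j + 1})) (by omega) (by omega)
      (by omega) (red_vanish hm e b _ _ ?_) (red_vanish hm _ b _ _ ?_)
    · intro i hi i' hi'
      have h1 := hb₁ i hi
      have h3 := hb₀ i' hi'
      exact ht1 i i' (hz1 i i' (by omega))
    · intro i hi i' hi'
      have h1 := hb₁ i hi
      have h3 := hb₀ i' hi'
      exact ht2 i i' (hz2 i i' (by omega))
  obtain ⟨r, hr, hν⟩ := exists_typ hg ν hmono hsum hpair hone hstep
  -- the scaled basis
  have hcu : c * (algebraMap K (AdjoinRoot (G.fK f)) a⁻¹) ^ 2 = e := by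
    rw [hce, ← map_pow, mul_comm, ← Algebra.smul_def, smul_smul, ← mul_pow, inv_mul_cancel₀ ha,
      one_pow, one_smul]
  refine ⟨r, fun i => algebraMap K (AdjoinRoot (G.fK f)) a⁻¹ * b i, G1, G2,
    ⟨hr.zero, hr.mono, ?_, ?_, hr.top⟩, ?_, ?_, ⟨?_, ?_, ?_, ?_, ?_, ?_⟩⟩
  · have := hr.one
    omega
  · intro j hj hjg
    have := hr.step j hj hjg
    omega
  · rw [gram1_scale, hcu, hg1]
  · rw [gram2_scale, hcu, hg2]
  · exact red_symm G hg1 (gram1_symm hm e b)
  · exact red_symm G hg2 (gram2_symm hm e b)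
  · intro i j
    refine G.M_mono ?_ (hd1 i j)
    have h3 := (hν i).2
    have h4 := (hν j).2
    push_cast
    linarith
  · intro i j
    refine G.M_mono ?_ (hd2 i j)
    have h3 := (hν i).2
    have h4 := (hν j).2
    push_cast
    linarith
  · obtain ⟨x, hx0, hx⟩ := hN
    have hsq : ((coord hm b).det * x) ^ 2 = algebraMap G.A K ((-1) ^ g * G1.det) := by
      have h1 := gram1_det hm hfd e b
      rw [hgd, hx] at h1
      rw [map_mul, h1, map_pow, map_neg, map_one]
      have h4 : ((-1 : K) ^ g) * (-1) ^ g = 1 := by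
        rw [← mul_pow, neg_one_mul, neg_neg, one_pow]
      calc ((coord hm b).det * x) ^ 2 = (((-1 : K) ^ g) * (-1) ^ g) *
            ((coord hm b).det * x) ^ 2 := by rw [h4, one_mul]
        _ = _ := by ring
    have hint : IsIntegral G.A ((coord hm b).det * x) := by
      refine ⟨X ^ 2 - Polynomial.C ((-1) ^ g * G1.det), monic_X_pow_sub_C _ (by norm_num), ?_⟩
      rw [eval₂_sub, eval₂_X_pow, eval₂_C, hsq, sub_self]
    obtain ⟨u, hu'⟩ := IsIntegrallyClosed.isIntegral_iff.1 hint
    have h5 : (-1) ^ g * G1.det = u ^ 2 := by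
      apply hinj
      rw [map_pow, hu', hsq]
    refine ⟨u, ?_, h5⟩
    rintro rfl
    rw [zero_pow two_ne_zero] at h5
    exact mul_ne_zero (pow_ne_zero _ (neg_ne_zero.2 one_ne_zero)) hdet0 h5
  · have h3 := red_det_mem G (G1.map (algebraMap G.A K)) ν (C := ((2 * C : ℕ) : ℤ))
      (by push_cast; linarith) hd1
    have h4 : (G1.det : K) = (G1.map (algebraMap G.A K)).det :=
      (algebraMap G.A K).map_det G1
    rw [h4]
    exact h3

end Pool.Agent.GBC
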