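import Pool.Agent.Lib.GBC.T.Wt
import Pool.Agent.Lib.GBC.Q.Chi

/-!
Module M.Gr of GBC. For a `K`-subspace `W` of `L` of dimension `r` the quotient
`(W ∩ t ^ z B_L) / (W ∩ t ^ (z - 1) B_L)` has dimension at most `d r` over `k`.

PROOF. `N = W ∩ BL z` is a `B`-submodule of `L` (`BL_smul` with `B = M 0`; `L` is a `B`-module through
`K`), and `W ∩ BL (z - 1) = t⁻¹ N` (`BL_smul_iff`, `W` is a `K`-space). `BL z` is a finitely generated
`B`-module (it is the direct sum of the `M (z - 2 m i) θ ^ i`, `i < n`, each `≅ B`) and `B` is Noetherian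
(a PID), so `N` is finitely generated; it is torsion free (in the `K`-space `L`), so it is free
(`Module.free_of_finite_type_torsion_free'`) of rank `r'`; a `B`-basis of `N` is linearly independent
over `K` (`K` is the fraction field of `B`: every element of `K` is `b / t⁻¹ ^ n` with `b ∈ B`,
`G.exh`; `LinearIndependent.iff_fractionRing`-like), so `r' ≤ r = dim_K W`. `N / t⁻¹ N ≅ (B / t⁻¹ B) ^ r'` has
dimension `d r'` over `k` (`G.fin_quot`, `G.dim_quot`).
-/

set_option autoImplicit false

open Polynomial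

namespace Pool.Agent.GBC

open Pool.Agent.BSDP Pool.Agent.BSDFF Pool.Agent.HYP

variable {k K : Type} [Field k] [Field K] [Algebra k K] {G : Geo k K} {m : ℕ}

private theorem Gr_frac (G : Geo k K) : IsFractionRing G.B K := by
  apply IsFractionRing.of_field
  intro x
  obtain ⟨n, hn⟩ := G.exh x
  refine ⟨⟨_, hn⟩, G.ti ^ n, ?_⟩
  have h : (algebraMap G.B K) (G.ti ^ n) = G.t⁻¹ ^ n := by
    rw [map_pow]; rfl
  rw [h]
  have h2 : (algebraMap G.B K) ⟨G.t⁻¹ ^ n * x, hn⟩ = G.t⁻¹ ^ n * x := rfl
  rw [h2]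
  have h3 : G.t⁻¹ ^ n ≠ 0 := pow_ne_zero _ (inv_ne_zero G.t_ne)
  exact (mul_div_cancel_left₀ x h3).symm

private theorem Gr_smul_def {F : K[X]} (b : G.B) (l : AdjoinRoot F) : b • l = (b : K) • l := rfl

/-- the submodule over `B` -/
private noncomputable def Gr_N {F : K[X]} (hF : F.Monic) (W : Submodule K (AdjoinRoot F)) (z : ℤ) :
    Submodule G.B (AdjoinRoot F) where
  carrier := {l | l ∈ W ∧ l ∈ BL G m hF z}
  add_mem' {a b} ha hb := ⟨W.add_mem ha.1 hb.1, (BL G m hF z).add_mem ha.2 hb.2⟩
  zero_mem' := ⟨W.zero_mem, (BL G m hF z).zero_mem⟩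
  smul_mem' c x hx := by
    refine ⟨?_, ?_⟩
    · rw [Gr_smul_def]; exact W.smul_mem _ hx.1
    · rw [Gr_smul_def]
      have h := BL_smul (G := G) (m := m) (hF := hF) (y := 0)
        ((Geo.mem_M_zero G _).2 c.2) hx.2
      rwa [zero_add] at h

private theorem Gr_fg {F : K[X]} (hF : F.Monic) (W : Submodule K (AdjoinRoot F)) (z : ℤ) :
    (Gr_N (G := G) (m := m) hF W z).FG := by
  have : IsNoetherianRing G.B := inferInstance
  have hT : (Submodule.span G.B (Set.range fun i : Fin F.natDegree =>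
      G.t ^ (z - 2 * m * (i : ℕ)) • (AdjoinRoot.root F) ^ (i : ℕ))).FG :=
    Submodule.fg_span (Set.finite_range _)
  refine hT.of_le ?_
  intro l hl
  have h1 := (AdjoinRoot.powerBasisAux' hF).sum_repr l
  rw [← h1]
  refine Submodule.sum_mem _ fun i _ => ?_
  rw [AdjoinRoot.powerBasisAux'_repr_apply_to_fun]
  have h2 : (AdjoinRoot.powerBasisAux' hF) i = (AdjoinRoot.root F) ^ (i : ℕ) := by
    have := (AdjoinRoot.powerBasis' hF).basis_eq_pow i
    exact this
  rw [h2]
  have h3 := hl.2 i
  rw [Geo.mem_M] at h3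
  have h4 : (AdjoinRoot.modByMonicHom hF l).coeff (i : ℕ) • (AdjoinRoot.root F) ^ (i : ℕ) =
      (⟨_, h3⟩ : G.B) • (G.t ^ (z - 2 * m * (i : ℕ)) • (AdjoinRoot.root F) ^ (i : ℕ)) := by
    rw [Gr_smul_def, smul_smul]
    congr 1
    show _ = (G.t ^ (-(z - 2 * m * (i : ℕ))) * _) * _
    rw [mul_right_comm, ← zpow_add₀ G.t_ne, neg_add_cancel, zpow_zero, one_mul]
  rw [h4]
  exact Submodule.smul_mem _ _ (Submodule.subset_span ⟨i, rfl⟩)

theorem gr_le {F : K[X]} (hF : F.Monic) (W : Submodule K (AdjoinRoot F)) (z : ℤ) :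
    Module.Finite k (Rel (W.restrictScalars k ⊓ BL G m hF (z - 1))
      (W.restrictScalars k ⊓ BL G m hF z)) ∧
    Module.finrank k (Rel (W.restrictScalars k ⊓ BL G m hF (z - 1))
      (W.restrictScalars k ⊓ BL G m hF z)) ≤ G.d * Module.finrank K W := by
  have hfr : IsFractionRing G.B K := Gr_frac G
  have : Module.Finite K (AdjoinRoot F) := (AdjoinRoot.powerBasis' hF).finite
  set N := Gr_N (G := G) (m := m) hF W z with hN
  have hfin : Module.Finite G.B N := Module.Finite.iff_fg.2 (Gr_fg hF W z)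
  have htf : Module.IsTorsionFree G.B (AdjoinRoot F) := .trans_faithfulSMul G.B K _
  have htf' : Module.IsTorsionFree G.B N := inferInstance
  have hfree : Module.Free G.B N := Module.free_of_finite_type_torsion_free'
  set r' := Module.finrank G.B N with hr'
  let b : Module.Basis (Fin r') G.B N := Module.finBasis G.B N
  have hle : r' ≤ Module.finrank K W := by
    have h1 : LinearIndependent G.B (fun i => ((b i : N) : AdjoinRoot F)) :=
      b.linearIndependent.map' N.subtype N.ker_subtype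
    have h2 : LinearIndependent K (fun i => ((b i : N) : AdjoinRoot F)) :=
      (LinearIndependent.iff_fractionRing G.B K).1 h1
    have h3 : LinearIndependent K (fun i => (⟨((b i : N) : AdjoinRoot F), (b i).2.1⟩ : W)) := by
      refine LinearIndependent.of_comp W.subtype ?_
      exact h2
    simpa using h3.fintype_card_le_finrank
  set I : Ideal G.B := Ideal.span {G.ti} with hI
  have hfq : Module.Finite k (G.B ⧸ I) := G.fin_quot
  have hdq : Module.finrank k (G.B ⧸ I) = G.d := G.dim_quot
  -- the quotient map on vectors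
  let Q : (Fin r' → G.B) →ₗ[k] (Fin r' → G.B ⧸ I) :=
    LinearMap.pi fun i => (Ideal.Quotient.mkₐ k I).toLinearMap ∘ₗ LinearMap.proj i
  have hQ : Function.Surjective Q := by
    intro y
    choose x hx using fun i => Ideal.Quotient.mkₐ_surjective k I (y i)
    exact ⟨x, funext fun i => hx i⟩
  let f0 : (Fin r' → G.B) →ₗ[k] (W.restrictScalars k ⊓ BL G m hF z : Submodule k (AdjoinRoot F)) :=
    { toFun := fun c => ⟨((∑ i, c i • b i : N) : AdjoinRoot F), (∑ i, c i • b i : N).2⟩
      map_add' := by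
        intro c c'
        apply Subtype.ext
        show ((∑ i, (c + c') i • b i : N) : AdjoinRoot F) =
          ((∑ i, c i • b i : N) : AdjoinRoot F) + ((∑ i, c' i • b i : N) : AdjoinRoot F)
        rw [← Submodule.coe_add, ← Finset.sum_add_distrib]
        simp only [Pi.add_apply, add_smul]
      map_smul' := by
        intro a c
        apply Subtype.ext
        show ((∑ i, (a • c) i • b i : N) : AdjoinRoot F) =
          a • ((∑ i, c i • b i : N) : AdjoinRoot F)
        simp only [Submodule.coe_sum, Submodule.coe_smul, Finset.smul_sum, Pi.smul_apply]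
        refine Finset.sum_congr rfl fun i _ => ?_
        rw [Gr_smul_def, Gr_smul_def, Subalgebra.coe_smul, smul_assoc] }
  have hf0 : Function.Surjective f0 := by
    intro x
    have hx : (x : AdjoinRoot F) ∈ N := ⟨x.2.1, x.2.2⟩
    refine ⟨b.repr ⟨x, hx⟩, ?_⟩
    apply Subtype.ext
    show ((∑ i, (b.repr ⟨x, hx⟩) i • b i : N) : AdjoinRoot F) = x
    rw [b.sum_repr]
  let f := ((W.restrictScalars k ⊓ BL G m hF (z - 1)).submoduleOf
    (W.restrictScalars k ⊓ BL G m hF z)).mkQ ∘ₗ f0
  have hf : Function.Surjective f := (Submodule.mkQ_surjective _).comp hf0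
  have hker : LinearMap.ker Q ≤ LinearMap.ker f := by
    intro c hc
    rw [LinearMap.mem_ker] at hc ⊢
    have hc' : ∀ i, c i ∈ I := by
      intro i
      have := congrFun hc i
      exact Ideal.Quotient.eq_zero_iff_mem.1 this
    show ((W.restrictScalars k ⊓ BL G m hF (z - 1)).submoduleOf
      (W.restrictScalars k ⊓ BL G m hF z)).mkQ (f0 c) = 0
    rw [Submodule.mkQ_apply, Submodule.Quotient.mk_eq_zero]
    show ((∑ i, c i • b i : N) : AdjoinRoot F) ∈ (W.restrictScalars k ⊓ BL G m hF (z - 1))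
    choose e he using fun i => Ideal.mem_span_singleton'.1 (hc' i)
    rw [Submodule.coe_sum]
    refine Submodule.sum_mem _ fun i _ => ?_
    rw [Submodule.coe_smul]
    have h5 : c i • ((b i : N) : AdjoinRoot F) =
        G.t ^ (-1 : ℤ) • ((e i • b i : N) : AdjoinRoot F) := by
      rw [← he i, Submodule.coe_smul, Gr_smul_def, Gr_smul_def, smul_smul]
      congr 1
      show (e i : K) * G.t⁻¹ = _
      rw [zpow_neg, zpow_one, mul_comm]
    rw [h5]
    have h6 := (e i • b i : N).2
    refine ⟨W.smul_mem _ h6.1, ?_⟩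
    have h7 := (BL_smul_iff (G := G) (m := m) (hF := hF) (y := -1)).2 h6.2
    rwa [← sub_eq_add_neg] at h7
  have e1 : ((Fin r' → G.B) ⧸ LinearMap.ker Q) ≃ₗ[k] (Fin r' → G.B ⧸ I) :=
    Q.quotKerEquivOfSurjective hQ
  have e2 := f.quotKerEquivOfSurjective hf
  have hfinX : Module.Finite k ((Fin r' → G.B) ⧸ LinearMap.ker Q) := Module.Finite.equiv e1.symm
  have hsurj : Function.Surjective (Submodule.factor hker) := Submodule.factor_surjective hker
  have hfinY : Module.Finite k ((Fin r' → G.B) ⧸ LinearMap.ker f) :=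
    Module.Finite.of_surjective _ hsurj
  refine ⟨Module.Finite.equiv e2, ?_⟩
  rw [← e2.finrank_eq]
  calc Module.finrank k ((Fin r' → G.B) ⧸ LinearMap.ker f)
      ≤ Module.finrank k ((Fin r' → G.B) ⧸ LinearMap.ker Q) :=
        LinearMap.finrank_le_finrank_of_surjective hsurj
    _ = G.d * r' := by
        have hfr1 : Module.Free k (G.B ⧸ I) := Module.Free.of_divisionRing k (G.B ⧸ I)
        have hfr2 : ∀ _ : Fin r', Module.Free k (G.B ⧸ I) := fun _ => hfr1
        have hfr3 : ∀ _ : Fin r', Module.Finite k (G.B ⧸ I) := fun _ => hfq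
        rw [e1.finrank_eq, Module.finrank_pi_fintype]
        simp [hdq, mul_comm]
    _ ≤ G.d * Module.finrank K W := Nat.mul_le_mul_left _ hle

end Pool.Agent.GBC
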