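import Mathlib

/-!
Module M.Min of GBC. Successive minima: pure linear algebra.

PROOF. Let `n = finrank F V`. Induction: construct `b_1, …, b_i` linearly independent and
`ν_1 ≤ … ≤ ν_i` with `b_j ∈ X (ν_j)` and: every `x ∈ X y` with `y < ν_i` is in the span of the `b_j` with
`ν_j ≤ y`. Step: if the span `W` of `b_1, …, b_i` is not `V` there is `y` with `X y ⊄ W` (`hspan`); as
`X y ⊆ {0} ⊆ W` for `y ≤ y₀` there is a least such `y =: ν_{i+1}`; choose `b_{i+1} ∈ X y`, `b_{i+1} ∉ W`.
`ν_{i+1} ≥ ν_i`: if `ν_{i+1} < ν_i` then `X (ν_{i+1})` is contained in the span of `b_1, …, b_i` by the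
minimality of `ν_i` (for `ν_i` least with `X y ⊄ span (b_1, …, b_{i-1})`).
A clean way: for `y : ℤ` let `W y = span F (X y)`, increasing, `W y = ⊥` for `y ≤ y₀`, and `W y = ⊤` for
`y` large (finite dimension). Choose for every `y` a family in `X y` completing a basis of `W (y - 1)`
consisting of earlier elements to a basis of `W y` (`exists_linearIndependent`, ...), index the union.
-/

set_option autoImplicit false

namespace Pool.Agent.GBC

private theorem Min_aux {F V : Type} [Field F] [AddCommGroup V] [Module F V]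
    [FiniteDimensional F V] {n : ℕ} (hn : Module.finrank F V = n) (X : ℤ → Set V)
    (hX : ∀ y y' : ℤ, y ≤ y' → X y ⊆ X y') (hbot : ∃ y₀ : ℤ, ∀ x ∈ X y₀, x = 0)
    (hspan : Submodule.span F (⋃ y, X y) = ⊤) (k : ℕ) (hk : k ≤ n) :
    ∃ (b : Fin k → V) (ν : Fin k → ℤ), LinearIndependent F b ∧ Monotone ν ∧
      (∀ i, b i ∈ X (ν i)) ∧
      ∀ y : ℤ, (∃ i, y < ν i) → ∀ x ∈ X y, x ∈ Submodule.span F (b '' {i | ν i ≤ y}) := by
  induction k with
  | zero =>
    refine ⟨Fin.elim0, Fin.elim0, linearIndependent_empty_type, fun i => i.elim0,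
      fun i => i.elim0, ?_⟩
    rintro y ⟨i, _⟩
    exact i.elim0
  | succ k ih =>
    obtain ⟨b, ν, hb, hν, hbX, hP⟩ := ih (by omega)
    set W := Submodule.span F (Set.range b) with hW
    have hWne : W ≠ ⊤ := by
      intro htop
      have h1 := finrank_span_eq_card hb
      rw [← hW, htop, finrank_top, hn, Fintype.card_fin] at h1
      omega
    have hex : ∃ y : ℤ, ¬ X y ⊆ (W : Set V) := by
      by_contra hno
      push Not at hno
      apply hWne
      rw [eq_top_iff, ← hspan]
      exact Submodule.span_le.2 (Set.iUnion_subset hno)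
    obtain ⟨y₀, hy₀⟩ := hbot
    have hbdd : ∃ c : ℤ, ∀ z : ℤ, ¬ X z ⊆ (W : Set V) → c ≤ z := by
      refine ⟨y₀, fun z hz => ?_⟩
      by_contra hc
      apply hz
      intro x hx
      have h1 := hX z y₀ (by omega) hx
      rw [hy₀ x h1]
      exact W.zero_mem
    obtain ⟨z, hz, hzmin⟩ := Int.exists_least_of_bdd hbdd hex
    rw [Set.not_subset] at hz
    obtain ⟨v, hvX, hvW⟩ := hz
    have hνz : ∀ i, ν i ≤ z := by
      intro i
      by_contra hc
      have h1 := hP z ⟨i, not_le.1 hc⟩ v hvX
      apply hvW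
      exact Submodule.span_mono (Set.image_subset_range _ _) h1
    have hsub : ∀ y : ℤ, b '' {i | ν i ≤ y} ⊆
        (Fin.snoc b v : Fin (k + 1) → V) '' {i | (Fin.snoc ν z : Fin (k + 1) → ℤ) i ≤ y} := by
      rintro y _ ⟨i, hi, rfl⟩
      refine ⟨i.castSucc, ?_, ?_⟩
      · simp only [Set.mem_setOf_eq, Fin.snoc_castSucc]
        exact hi
      · simp only [Fin.snoc_castSucc]
    refine ⟨Fin.snoc b v, Fin.snoc ν z, ?_, ?_, ?_, ?_⟩
    · rw [linearIndependent_finSnoc]
      exact ⟨hb, hvW⟩
    · intro i j hij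
      induction j using Fin.lastCases with
      | last =>
        rw [Fin.snoc_last]
        induction i using Fin.lastCases with
        | last => rw [Fin.snoc_last]
        | cast i => rw [Fin.snoc_castSucc]; exact hνz i
      | cast j =>
        rw [Fin.snoc_castSucc]
        induction i using Fin.lastCases with
        | last =>
          exfalso
          have := Fin.castSucc_lt_last j
          exact absurd hij (not_le.2 this)
        | cast i =>
          rw [Fin.snoc_castSucc]
          exact hν (Fin.castSucc_le_castSucc_iff.1 hij)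
    · intro i
      induction i using Fin.lastCases with
      | last => rw [Fin.snoc_last, Fin.snoc_last]; exact hvX
      | cast i => rw [Fin.snoc_castSucc, Fin.snoc_castSucc]; exact hbX i
    · rintro y ⟨i, hi⟩ x hx
      by_cases hold : ∃ i, y < ν i
      · exact Submodule.span_mono (hsub y) (hP y hold x hx)
      · push Not at hold
        have hyz : y < z := by
          induction i using Fin.lastCases with
          | last => rwa [Fin.snoc_last] at hi
          | cast i =>
            rw [Fin.snoc_castSucc] at hi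
            exact absurd (hold i) (not_le.2 hi)
        have h1 : X y ⊆ (W : Set V) := by
          by_contra hc
          exact absurd (hzmin y hc) (not_le.2 hyz)
        have h2 : Set.range b ⊆ b '' {i | ν i ≤ y} := by
          rintro _ ⟨j, rfl⟩
          exact ⟨j, hold j, rfl⟩
        exact Submodule.span_mono (h2.trans (hsub y)) (h1 hx)

theorem exists_minima {F V : Type} [Field F] [AddCommGroup V] [Module F V]
    [FiniteDimensional F V] {n : ℕ} (hn : Module.finrank F V = n) (X : ℤ → Set V)
    (hX : ∀ y y' : ℤ, y ≤ y' → X y ⊆ X y') (hbot : ∃ y₀ : ℤ, ∀ x ∈ X y₀, x = 0)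
    (hspan : Submodule.span F (⋃ y, X y) = ⊤) :
    ∃ (b : Module.Basis (Fin n) F V) (ν : Fin n → ℤ), Monotone ν ∧ (∀ i, b i ∈ X (ν i)) ∧
      ∀ y : ℤ, ∀ x ∈ X y, x ∈ Submodule.span F (b '' {i | ν i ≤ y}) := by
  obtain ⟨b, ν, hb, hν, hbX, hP⟩ := Min_aux hn X hX hbot hspan n le_rfl
  have hcard : Fintype.card (Fin n) = Module.finrank F V := by rw [Fintype.card_fin, hn]
  have htop : Submodule.span F (Set.range b) = ⊤ := hb.span_eq_top_of_card_eq_finrank' hcard
  refine ⟨Module.Basis.mk hb htop.ge, ν, hν, ?_, ?_⟩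
  · intro i
    rw [Module.Basis.mk_apply]
    exact hbX i
  · intro y x hx
    rw [Module.Basis.coe_mk]
    by_cases hold : ∃ i, y < ν i
    · exact hP y hold x hx
    · push Not at hold
      have h2 : Set.range b ⊆ b '' {i | ν i ≤ y} := by
        rintro _ ⟨j, rfl⟩
        exact ⟨j, hold j, rfl⟩
      apply Submodule.span_mono h2
      rw [htop]
      trivial

end Pool.Agent.GBC
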