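import Pool.Agent.Lib.GBC.Lam.Main
import Pool.Agent.Lib.GBC.M.Gr
import Pool.Agent.Lib.GBC.M.Min

/-!
Module M.Basis of GBC. The reduced basis of `Λ` and the sum of the minima.

PROOF. `Λ` from `lattice`, `Λ_y = Λ ⊓ BL (y + 2 g m)`, `χ₀ = chi A (M 0)`, `d = G.d`, `n = 2 g + 1`
(`finrank K L = n`: `AdjoinRoot.powerBasis'`). (1) `Λ_y = 0` for `y` small: the intersection of all `Λ_y` is
`0` (`BL z` for all `z`: all coordinates are in all `M y`, so they are `0`: if `x ≠ 0` is in all `M y` then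
`x⁻¹ ∈ M n` for some `n`, `1 ∈ M (n + y)` for all `y`, `L_neg`), the `Λ_y` are finite dimensional and
decreasing as `y → - ∞`, so `Λ_y = ⊥` for some `y`. (2) For a `K`-subspace `W` of dimension `r` and
`y₁ ≤ y`: `dim (W ∩ Λ_y) ≤ dim (W ∩ Λ_{y₁}) + d r (y - y₁)`: induction with `gr_le`
(`(W ∩ Λ_y) / (W ∩ Λ_{y - 1})` embeds in `(W ∩ BL z) / (W ∩ BL (z - 1))`). (3) The `Λ_y` span `L`: let
`W` be the span of all, of dimension `r`; by (2) `dim Λ_y ≤ const + d r y`, and
`dim Λ_y ≥ n χ₀ + n d y`; so `r ≥ n`. (4) `exists_minima` for `X y = Λ_y`: `b`, `ν`. For all `y`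
`Λ_y ⊆ W_y = span (b_i, ν_i ≤ y)`, so by (2) applied to the step from `y - 1` to `y` with `W = W_y`
`dim Λ_y ≤ dim Λ_{y - 1} + d #{i | ν_i ≤ y}`. Summing from below, for `y ≥ ν_n`:
`dim Λ_y ≤ d ∑_i (y - ν_i + 1)`. With the lower bound: `n (χ₀ + d y) ≤ d (n (y + 1) - ∑ ν_i)`, so
`d ∑ ν_i ≤ n d - n χ₀`, `∑ ν_i ≤ n (1 + |χ₀|) =: C`.
-/

set_option autoImplicit false

open Polynomial

namespace Pool.Agent.GBC

open Pool.Agent.BSDP Pool.Agent.BSDFF Pool.Agent.HYP

private theorem MBasis_rel {k V : Type} [Field k] [AddCommGroup V] [Module k V]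
    (A A' B B' : Submodule k V) (hA : Module.Finite k A) (hA' : Module.Finite k A')
    (h1 : A' ≤ B') (h2 : ∀ x ∈ A', x ∈ B → x ∈ A) (hR : Module.Finite k (Rel B B')) :
    Module.finrank k A' ≤ Module.finrank k A + Module.finrank k (Rel B B') := by
  let φ : A' →ₗ[k] Rel B B' := (B.submoduleOf B').mkQ ∘ₗ Submodule.inclusion h1
  have h3 := LinearMap.finrank_range_add_finrank_ker φ
  have h4 : Module.finrank k (LinearMap.range φ) ≤ Module.finrank k (Rel B B') :=
    Submodule.finrank_le _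
  have hk : ∀ x : LinearMap.ker φ, ((x : A') : V) ∈ A := by
    intro x
    have hx : φ (x : A') = 0 := x.2
    have h5 : (B.submoduleOf B').mkQ (Submodule.inclusion h1 (x : A')) = 0 := hx
    rw [Submodule.mkQ_apply, Submodule.Quotient.mk_eq_zero] at h5
    exact h2 _ (x : A').2 h5
  let ψ : LinearMap.ker φ →ₗ[k] A :=
    LinearMap.codRestrict A (A'.subtype ∘ₗ (LinearMap.ker φ).subtype) hk
  have hψ : Function.Injective ψ := by
    intro x y hxy
    have h5 : ((ψ x : A) : V) = ψ y := congrArg Subtype.val hxy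
    exact Subtype.ext (Subtype.ext h5)
  have h5 : Module.finrank k (LinearMap.ker φ) ≤ Module.finrank k A :=
    LinearMap.finrank_le_finrank_of_injective hψ
  omega

section abs

variable {k K L : Type} [Field k] [Field K] [Algebra k K] [AddCommGroup L] [Module k L]
  [Module K L] [IsScalarTower k K L]

private theorem MBasis_ind (Y : ℤ → Submodule k L) (d : ℕ) (W : Submodule K L)
    (hstep : ∀ y : ℤ, Module.finrank k (W.restrictScalars k ⊓ Y y : Submodule k L) ≤
      Module.finrank k (W.restrictScalars k ⊓ Y (y - 1) : Submodule k L) + d * Module.finrank K W)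
    (y₀ : ℤ) (hbot : Y y₀ = ⊥) (t : ℕ) :
    Module.finrank k (W.restrictScalars k ⊓ Y (y₀ + t) : Submodule k L) ≤
      t * (d * Module.finrank K W) := by
  induction t with
  | zero =>
    rw [Nat.cast_zero, add_zero, hbot, inf_bot_eq, finrank_bot]
    exact Nat.zero_le _
  | succ t ih =>
    have h := hstep (y₀ + ((t + 1 : ℕ) : ℤ))
    have e : y₀ + ((t + 1 : ℕ) : ℤ) - 1 = y₀ + t := by
      push_cast
      ring
    rw [e] at h
    have e2 : (t + 1) * (d * Module.finrank K W) =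
        t * (d * Module.finrank K W) + d * Module.finrank K W := by ring
    rw [e2]
    omega

private theorem MBasis_span [FiniteDimensional K L] {n : ℕ} (hn : Module.finrank K L = n)
    (Y : ℤ → Submodule k L) (d : ℕ) (hd : 1 ≤ d)
    (hstep : ∀ (W : Submodule K L) (y : ℤ),
      Module.finrank k (W.restrictScalars k ⊓ Y y : Submodule k L) ≤
      Module.finrank k (W.restrictScalars k ⊓ Y (y - 1) : Submodule k L) + d * Module.finrank K W)
    (y₀ : ℤ) (hbot : Y y₀ = ⊥) (χ : ℤ)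
    (hlow : ∀ y : ℤ, (n : ℤ) * (χ + d * y) ≤ Module.finrank k (Y y)) :
    Submodule.span K (⋃ y, (Y y : Set L)) = ⊤ := by
  by_contra hne
  set W := Submodule.span K (⋃ y, (Y y : Set L)) with hW
  have hr : Module.finrank K W < n := by
    rw [← hn]
    exact Submodule.finrank_lt hne
  have hle : ∀ y, W.restrictScalars k ⊓ Y y = Y y := by
    intro y
    refine inf_eq_right.2 fun x hx => ?_
    rw [Submodule.restrictScalars_mem]
    exact Submodule.subset_span (Set.mem_iUnion.2 ⟨y, hx⟩)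
  set t : ℕ := ((n : ℤ) * χ + n * d * y₀).natAbs + 1 with ht
  have h1 := MBasis_ind Y d W (hstep W) y₀ hbot t
  rw [hle] at h1
  have h2 := hlow (y₀ + t)
  have h3 : (Module.finrank k (Y (y₀ + t)) : ℤ) ≤ t * (d * Module.finrank K W) := by
    exact_mod_cast h1
  have h4 : (Module.finrank K W : ℤ) ≤ n - 1 := by omega
  have h5 : (0 : ℤ) ≤ (t : ℤ) * d := by positivity
  have h6 : (t : ℤ) * (d * Module.finrank K W) ≤ t * d * (n - 1) := by
    rw [← mul_assoc]
    exact mul_le_mul_of_nonneg_left h4 h5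
  have h7 : (n : ℤ) * χ + n * d * y₀ + t * d ≤ 0 := by
    have e : (n : ℤ) * (χ + d * (y₀ + t)) = (n : ℤ) * χ + n * d * y₀ + n * (t * d) := by ring
    have e2 : (t : ℤ) * d * (n - 1) = n * (t * d) - t * d := by ring
    rw [e] at h2
    rw [e2] at h6
    linarith
  have h8 : (t : ℤ) ≤ t * d := by
    have : (1 : ℤ) ≤ d := by exact_mod_cast hd
    have ht0 : (0 : ℤ) ≤ t := by positivity
    nlinarith
  have h9 : -(((n : ℤ) * χ + n * d * y₀).natAbs : ℤ) ≤ (n : ℤ) * χ + n * d * y₀ := by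
    rw [← Int.abs_eq_natAbs]
    exact neg_abs_le _
  rw [ht] at h7 h8
  push_cast at h7 h8
  rw [← Int.abs_eq_natAbs] at h9
  linarith [h7, h8, h9]

private theorem MBasis_main [FiniteDimensional K L] {n : ℕ} (hn : Module.finrank K L = n)
    (Y : ℤ → Submodule k L) (hmono : ∀ y y' : ℤ, y ≤ y' → Y y ≤ Y y')
    (hfin : ∀ y, Module.Finite k (Y y)) (d : ℕ) (hd : 1 ≤ d)
    (hstep : ∀ (W : Submodule K L) (y : ℤ),
      Module.finrank k (W.restrictScalars k ⊓ Y y : Submodule k L) ≤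
      Module.finrank k (W.restrictScalars k ⊓ Y (y - 1) : Submodule k L) + d * Module.finrank K W)
    (y₀ : ℤ) (hbot : Y y₀ = ⊥) (χ : ℤ)
    (hlow : ∀ y : ℤ, (n : ℤ) * (χ + d * y) ≤ Module.finrank k (Y y)) :
    ∃ (b : Module.Basis (Fin n) K L) (ν : Fin n → ℤ), Monotone ν ∧
      ∑ i, ν i ≤ ((n * (1 + χ.natAbs) : ℕ) : ℤ) ∧ ∀ i, b i ∈ Y (ν i) := by
  classical
  obtain ⟨b, ν, hν, hb, hmin⟩ := exists_minima (F := K) (V := L) hn (fun y => (Y y : Set L))
    (fun y y' h => hmono y y' h) ⟨y₀, fun x hx => by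
      have hx' : x ∈ Y y₀ := hx
      rw [hbot, Submodule.mem_bot] at hx'
      exact hx'⟩ (MBasis_span hn Y d hd hstep y₀ hbot χ hlow)
  refine ⟨b, ν, hν, ?_, hb⟩
  -- the bound from above
  have hW : ∀ y : ℤ, Module.finrank k (Y y) ≤ Module.finrank k (Y (y - 1)) +
      d * (Finset.univ.filter (fun i => ν i ≤ y)).card := by
    intro y
    set W := Submodule.span K (b '' {i | ν i ≤ y}) with hWd
    have h1 : W.restrictScalars k ⊓ Y y = Y y := by
      refine inf_eq_right.2 fun x hx => ?_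
      rw [Submodule.restrictScalars_mem]
      exact hmin y x hx
    have h2 := hstep W y
    rw [h1] at h2
    have h3 : Module.finrank k (W.restrictScalars k ⊓ Y (y - 1) : Submodule k L) ≤
        Module.finrank k (Y (y - 1)) := by
      have := hfin (y - 1)
      exact Submodule.finrank_mono inf_le_right
    have h4 : Module.finrank K W ≤ (Finset.univ.filter (fun i => ν i ≤ y)).card := by
      have e : (b '' {i | ν i ≤ y} : Set L) =
          (((Finset.univ.filter (fun i => ν i ≤ y)).image b : Finset L) : Set L) := by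
        rw [Finset.coe_image, Finset.coe_filter]
        simp
      rw [hWd, e]
      exact (finrank_span_finset_le_card _).trans Finset.card_image_le
    have h5 := Nat.mul_le_mul_left d h4
    omega
  have hS : ∀ t : ℕ, (Module.finrank k (Y (y₀ + t)) : ℤ) ≤
      d * ∑ i, max 0 (y₀ + t - ν i + 1) := by
    intro t
    induction t with
    | zero =>
      rw [Nat.cast_zero, add_zero, hbot, finrank_bot]
      push_cast
      exact mul_nonneg (by positivity) (Finset.sum_nonneg fun i _ => le_max_left _ _)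
    | succ t ih =>
      have h := hW (y₀ + ((t + 1 : ℕ) : ℤ))
      have e : y₀ + ((t + 1 : ℕ) : ℤ) - 1 = y₀ + t := by
        push_cast
        ring
      rw [e] at h
      have h' : (Module.finrank k (Y (y₀ + ((t + 1 : ℕ) : ℤ))) : ℤ) ≤
          Module.finrank k (Y (y₀ + t)) +
            d * ((Finset.univ.filter (fun i => ν i ≤ y₀ + ((t + 1 : ℕ) : ℤ))).card : ℤ) := by
        exact_mod_cast h
      have hc : ((Finset.univ.filter (fun i => ν i ≤ y₀ + ((t + 1 : ℕ) : ℤ))).card : ℤ) =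
          ∑ i, (if ν i ≤ y₀ + ((t + 1 : ℕ) : ℤ) then (1 : ℤ) else 0) := by
        rw [Finset.card_filter]
        push_cast
        rfl
      have hsum : ∑ i, max 0 (y₀ + ((t + 1 : ℕ) : ℤ) - ν i + 1) =
          ∑ i, max 0 (y₀ + t - ν i + 1) +
            ∑ i, (if ν i ≤ y₀ + ((t + 1 : ℕ) : ℤ) then (1 : ℤ) else 0) := by
        rw [← Finset.sum_add_distrib]
        refine Finset.sum_congr rfl fun i _ => ?_
        push_cast
        split_ifs with h9
        · rw [max_eq_right (by omega), max_eq_right (by omega)]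
          ring
        · rw [max_eq_left (by omega), max_eq_left (by omega)]
          ring
      rw [hsum, mul_add, ← hc]
      linarith
  -- a large value
  set t : ℕ := (∑ i, (ν i).natAbs) + y₀.natAbs with ht
  have hbig : ∀ i, ν i ≤ y₀ + t := by
    intro i
    have h1 : (ν i).natAbs ≤ ∑ i, (ν i).natAbs :=
      Finset.single_le_sum (f := fun i => (ν i).natAbs) (fun _ _ => Nat.zero_le _)
        (Finset.mem_univ i)
    omega
  have h1 := hS t
  have h2 := hlow (y₀ + t)
  have h3 : ∑ i, max 0 (y₀ + t - ν i + 1) = n * (y₀ + t + 1) - ∑ i, ν i := by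
    have h4 : ∀ i ∈ (Finset.univ : Finset (Fin n)), max 0 (y₀ + t - ν i + 1) =
        (y₀ + t + 1) - ν i := by
      intro i _
      have := hbig i
      rw [max_eq_right (by omega)]
      ring
    rw [Finset.sum_congr rfl h4, Finset.sum_sub_distrib, Finset.sum_const, Finset.card_univ,
      Fintype.card_fin, nsmul_eq_mul]
  rw [h3] at h1
  have h5 : (d : ℤ) * ∑ i, ν i ≤ n * d - n * χ := by
    have e1 : (n : ℤ) * (χ + d * (y₀ + t)) = n * χ + d * (n * (y₀ + t)) := by ring
    have e2 : (d : ℤ) * (n * (y₀ + t + 1) - ∑ i, ν i) =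
        d * (n * (y₀ + t)) + n * d - d * ∑ i, ν i := by ring
    rw [e1] at h2
    rw [e2] at h1
    linarith
  by_contra hcon
  push Not at hcon
  push_cast at hcon
  have hd' : (1 : ℤ) ≤ d := by exact_mod_cast hd
  have hn0 : (0 : ℤ) ≤ n := by positivity
  have hχ : -χ ≤ |χ| := neg_le_abs χ
  have h6 : -(n * χ) ≤ n * |χ| := by nlinarith
  have h7 : (n : ℤ) * (1 + |χ|) + 1 ≤ ∑ i, ν i := by
    have := hcon
    omega
  have h8 : (d : ℤ) * (n * (1 + |χ|) + 1) ≤ d * ∑ i, ν i :=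
    mul_le_mul_of_nonneg_left h7 (by positivity)
  have h9 : (n : ℤ) * |χ| ≤ d * (n * |χ|) := by
    have : 0 ≤ (n : ℤ) * |χ| := mul_nonneg hn0 (abs_nonneg _)
    nlinarith
  nlinarith

end abs

private theorem MBasis_coeff {k K : Type} [Field k] [Field K] [Algebra k K] {G : Geo k K}
    {f : G.A[X]} (hf : f.Monic) (hm : (G.fK f).Monic) (l : AdjoinRoot (G.fK f)) (hl : l ∈ SA G f)
    (i : ℕ) : (AdjoinRoot.modByMonicHom hm l).coeff i ∈ G.A := by
  obtain ⟨s, rfl⟩ := hl
  obtain ⟨P, rfl⟩ := AdjoinRoot.mk_surjective s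
  have h1 : bc (algebraMap G.A K) f (AdjoinRoot.mk f P) =
      AdjoinRoot.mk (G.fK f) (P.map (algebraMap G.A K)) := by
    unfold bc AdjoinRoot.map
    rw [AdjoinRoot.lift_mk, ← Polynomial.eval₂_map]
    have h9 := (AdjoinRoot.aeval_eq (f := f.map (algebraMap G.A K)) (P.map (algebraMap G.A K)))
    rw [aeval_def] at h9
    exact h9
  rw [h1, AdjoinRoot.modByMonicHom_mk]
  have h2 : P.map (algebraMap G.A K) %ₘ G.fK f = (P %ₘ f).map (algebraMap G.A K) :=
    (Polynomial.map_modByMonic (algebraMap G.A K) hf).symm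
  rw [h2, coeff_map]
  exact ((P %ₘ f).coeff i).2

private theorem MBasis_bot {k K : Type} [Field k] [Field K] [Algebra k K] {G : Geo k K} {g m : ℕ}
    {D : Data G g} {f : G.A[X]} (hf : Fam₀ D m f) (hm : (G.fK f).Monic)
    (c e' : AdjoinRoot (G.fK f)) (hc : c ∈ BL G m hm 0) (h : c * e' = 1)
    (Λ : Submodule k (AdjoinRoot (G.fK f))) (hΛ : ∀ l ∈ Λ, ∀ l' ∈ Λ, c * l * l' ∈ SA G f) :
    Λ ⊓ BL G m hm (-1) = ⊥ := by
  rw [eq_bot_iff]
  rintro l ⟨h1, h2⟩
  rw [Submodule.mem_bot]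
  have h3 : c * l * l ∈ BL G m hm (0 + -1 + -1) := BL_mul hf (BL_mul hf hc h2) h2
  have h4 := hΛ l h1 l h1
  have h5 : c * l * l = 0 := by
    have h6 : AdjoinRoot.modByMonicHom hm (c * l * l) = 0 := by
      ext i
      rw [coeff_zero]
      refine G.L_neg (y := 0 + -1 + -1 - 2 * m * i) ?_ (MBasis_coeff hf.monic hm _ h4 i) (h3 i)
      have : (0 : ℤ) ≤ 2 * m * i := by positivity
      omega
    have h7 := AdjoinRoot.mk_leftInverse hm (c * l * l)
    rw [h6, map_zero] at h7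
    exact h7.symm
  by_contra h0
  have hu := isUnit_of_ne_zero hf l h0
  have hcu : IsUnit c := IsUnit.of_mul_eq_one _ h
  have hnt : Nontrivial (AdjoinRoot (G.fK f)) := ⟨⟨l, 0, h0⟩⟩
  exact ((hcu.mul hu).mul hu).ne_zero h5

theorem exists_basis {k K : Type} [Field k] [Field K] [Algebra k K] [Finite k]
    (h2 : (2 : k) ≠ 0) (G : Geo k K) (g : ℕ) : ∃ C : ℕ, ∀ (D : Data G g) (m : ℕ) (f : G.A[X]),
      Fam D m f → ∀ (hm : (G.fK f).Monic) (c e' : AdjoinRoot (G.fK f)), c ∈ BL G m hm 0 →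
      e' ∈ BL G m hm 0 → c * e' = 1 → InU G c →
      ∃ (b : Module.Basis (Fin (2 * g + 1)) K (AdjoinRoot (G.fK f))) (ν : Fin (2 * g + 1) → ℤ),
        Monotone ν ∧ ∑ i, ν i ≤ C ∧ (∀ i, b i ∈ BL G m hm (ν i + 2 * g * m)) ∧
        ∀ i j, c * b i * b j ∈ SA G f := by
  refine ⟨(2 * g + 1) * (1 + (chi G.A.toSubmodule (G.M 0)).natAbs), ?_⟩
  intro D m f hf hm c e' hc he h hu
  obtain ⟨Λ, hΛ, hfin, hlow⟩ := lattice h2 hf hm c e' hc he h hu
  have hf₀ : Fam₀ D m f := hf.toFam₀
  have hdeg : (G.fK f).natDegree = 2 * g + 1 := by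
    rw [hf₀.monic.natDegree_map, hf₀.deg]
  have hfd : FiniteDimensional K (AdjoinRoot (G.fK f)) := (AdjoinRoot.powerBasis' hm).finite
  have hn : Module.finrank K (AdjoinRoot (G.fK f)) = 2 * g + 1 := by
    rw [(AdjoinRoot.powerBasis' hm).finrank, AdjoinRoot.powerBasis'_dim, hdeg]
  have hstep : ∀ (W : Submodule K (AdjoinRoot (G.fK f))) (y : ℤ),
      Module.finrank k (W.restrictScalars k ⊓ (Λ ⊓ BL G m hm (y + 2 * g * m)) :
        Submodule k (AdjoinRoot (G.fK f))) ≤
      Module.finrank k (W.restrictScalars k ⊓ (Λ ⊓ BL G m hm (y - 1 + 2 * g * m)) :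
        Submodule k (AdjoinRoot (G.fK f))) + G.d * Module.finrank K W := by
    intro W y
    have e : y - 1 + 2 * g * m = y + 2 * g * m - 1 := by ring
    rw [e]
    obtain ⟨r1, r2⟩ := gr_le (G := G) (m := m) hm W (y + 2 * g * m)
    have f1 := hfin (y + 2 * g * m)
    have f2 := hfin (y + 2 * g * m - 1)
    have f3 : Module.Finite k (W.restrictScalars k ⊓ (Λ ⊓ BL G m hm (y + 2 * g * m)) :
        Submodule k (AdjoinRoot (G.fK f))) :=
      Submodule.finiteDimensional_of_le inf_le_right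
    have f4 : Module.Finite k (W.restrictScalars k ⊓ (Λ ⊓ BL G m hm (y + 2 * g * m - 1)) :
        Submodule k (AdjoinRoot (G.fK f))) :=
      Submodule.finiteDimensional_of_le inf_le_right
    refine (MBasis_rel _ _ _ _ f4 f3 ?_ ?_ r1).trans (Nat.add_le_add_left r2 _)
    · exact inf_le_inf_left _ inf_le_right
    · rintro x ⟨x1, x2, _⟩ ⟨_, x4⟩
      exact ⟨x1, x2, x4⟩
  have hbot : Λ ⊓ BL G m hm (-(2 * (g : ℤ) * m) - 1 + 2 * g * m) = ⊥ := by
    have e : -(2 * (g : ℤ) * m) - 1 + 2 * g * m = -1 := by ring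
    rw [e]
    exact MBasis_bot hf₀ hm c e' hc h Λ hΛ
  have hlow' : ∀ y : ℤ, ((2 * g + 1 : ℕ) : ℤ) * (chi G.A.toSubmodule (G.M 0) + G.d * y) ≤
      Module.finrank k (Λ ⊓ BL G m hm (y + 2 * g * m) : Submodule k (AdjoinRoot (G.fK f))) := by
    intro y
    have := hlow y
    push_cast
    exact this
  obtain ⟨b, ν, h1, h3, h4⟩ := MBasis_main (k := k) (K := K) (L := AdjoinRoot (G.fK f)) hn
    (fun y => Λ ⊓ BL G m hm (y + 2 * g * m))
    (fun y y' hy => inf_le_inf_left _ (BL_mono hm (by omega)))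
    (fun y => hfin _) G.d G.d_pos hstep (-(2 * g * m) - 1) hbot _ hlow'
  exact ⟨b, ν, h1, h3, fun i => (h4 i).2, fun i j => hΛ _ (h4 i).1 _ (h4 j).1⟩

end Pool.Agent.GBC
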